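import Pool.Agent.MP_1246c0_nt.H55.SpecC

/-! The final counting step. -/

namespace Pool.Agent.MP_1246c0_nt.H3

open Pool.Agent.MP_1246c0_nt.H55 Filter Finset

theorem fund_min9 {D : ℕ} (h : Fund D) {p : ℕ} (hp : p.Prime) (h3 : p ≠ 3) (u v : ℤ) :
    9 * (D : ℤ) ≠ p ^ 2 * (u ^ 2 - 4 * v) := by
  intro e
  have hc : IsCoprime (9 : ℤ) ((p : ℤ) ^ 2) := by
    have : Nat.Coprime (3 ^ 2) (p ^ 2) :=
      Nat.Coprime.pow _ _ ((Nat.coprime_primes Nat.prime_three hp).2 h3.symm)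
    exact_mod_cast Nat.isCoprime_iff_coprime.2 this
  obtain ⟨m, hm⟩ : (9 : ℤ) ∣ u ^ 2 - 4 * v := hc.dvd_of_dvd_mul_left ⟨_, e.symm⟩
  refine h.min hp u (v + 2 * m) ?_
  have e1 : u ^ 2 - 4 * (v + 2 * m) = m := by linarith
  rw [e1]
  rw [hm] at e
  linarith

theorem dsc_of_eqv {f g : Fm ℤ} (h : Eqv f g) : dsc f = dsc g := by
  obtain ⟨p, q, r, s, p', q', r', s', h1, h2, h3⟩ := h
  have e := congrArg dsc h3
  rw [dsc_act, dsc_act, h1, h2] at e
  simpa using e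

theorem mem_Pz {z p : ℕ} (h : p ∈ Pz z) : p.Prime ∧ p ≠ 3 := (mem_filter.1 h).2

theorem card_U (A : Finset ℕ) (S : ℕ → Finset (Fm ℤ)) (k : ℤ) (hk : k ≠ 0)
    (h : ∀ D ∈ A, ∀ f ∈ S D, dsc f = k * D) :
    (A.biUnion S).card = ∑ D ∈ A, (S D).card := by
  apply card_biUnion
  intro D hD E hE hne
  refine disjoint_left.2 fun f h1 h2 => hne ?_
  have e := (h D hD f h1).symm.trans (h E hE f h2)
  exact_mod_cast mul_left_cancel₀ hk e

theorem inj_U (A : Finset ℕ) (S : ℕ → Finset (Fm ℤ)) (k : ℤ) (hk : k ≠ 0)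
    (h : ∀ D ∈ A, ∀ f ∈ S D, dsc f = k * D)
    (h' : ∀ D ∈ A, ∀ f ∈ S D, ∀ g ∈ S D, Eqv f g → f = g) :
    ∀ f ∈ A.biUnion S, ∀ g ∈ A.biUnion S, Eqv f g → f = g := by
  intro f hf g hg e
  obtain ⟨D, hD, h1⟩ := mem_biUnion.1 hf
  obtain ⟨E, hE, h2⟩ := mem_biUnion.1 hg
  have e1 := ((h D hD f h1).symm.trans (dsc_of_eqv e)).trans (h E hE g h2)
  have e2 : D = E := by exact_mod_cast mul_left_cancel₀ hk e1
  subst e2
  exact h' D hD f h1 g h2 e

theorem arith (η ε t w X N B G U : ℝ) (h0 : 0 < η) (h1 : η ≤ 1 / 36) (h2 : 100 * η ≤ ε)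
    (ht : 1 / 18 ≤ t) (hw : w ≤ 1 + η) (hX : 0 ≤ X) (hN : (t - η) * X ≤ N) (hG : G + B = N)
    (hU : 2 * N + 6 * B ≤ U) (hU' : U ≤ (3 * w * t + 10 * η) * X) : (5 / 6 - ε) * N ≤ G := by
  have e1 : X ≤ 36 * N := by nlinarith
  have hN0 : 0 ≤ N := by linarith
  have e2 : η * X ≤ η * (36 * N) := mul_le_mul_of_nonneg_left e1 h0.le
  have e3 : t * X ≤ N + 36 * η * N := by nlinarith
  have e4 : w * (t * X) ≤ (1 + η) * (t * X) :=
    mul_le_mul_of_nonneg_right hw (mul_nonneg (by linarith) hX)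
  have e5 : (1 + η) * (t * X) ≤ (1 + η) * (N + 36 * η * N) :=
    mul_le_mul_of_nonneg_left e3 (by linarith)
  have e6 : η * (η * N) ≤ 1 * (η * N) :=
    mul_le_mul_of_nonneg_right (by linarith) (mul_nonneg h0.le hN0)
  have e7 : 100 * η * N ≤ ε * N := mul_le_mul_of_nonneg_right h2 hN0
  have e8 : 0 ≤ η * N := mul_nonneg h0.le hN0
  nlinarith

theorem rowFIN : RowALG → RowCNT → RowLOC3 → RowDEN → RowFD → RowEUL → RowFIN := by
  intro hALG hCNT hLOC hDEN hFD hEUL c hc ε hε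
  classical
  set η : ℝ := min (ε / 100) (1 / 36) with hη
  have h0 : 0 < η := lt_min (by positivity) (by norm_num)
  have h1 : η ≤ 1 / 36 := min_le_right _ _
  have h2 : 100 * η ≤ ε := by
    have : η ≤ ε / 100 := min_le_left _ _
    linarith
  obtain ⟨z, ⟨hP, hw⟩, hz3, hz⟩ := ((hEUL η h0).and ((eventually_ge_atTop 3).and
    (tendsto_natCast_atTop_atTop.eventually (eventually_ge_atTop (2 / η : ℝ))))).exists
  have hzp : (0 : ℝ) < z := by
    have : (3 : ℝ) ≤ z := by exact_mod_cast hz3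
    linarith
  have hzη : 2 / (z : ℝ) ≤ η := by
    rw [div_le_iff₀ hzp]
    rw [div_le_iff₀ h0] at hz
    linarith
  obtain ⟨M0, hM0, hD0⟩ := hDEN z 2 (P0 c) (r0 c) (hLOC.1 c hc)
  obtain ⟨M1, hM1, hD1⟩ := hDEN z 3 P1 (16 / 729) hLOC.2
  have hc0 := tendsto_natCast_atTop_atTop.eventually (hCNT M0 _ _ η hM0 hD0 h0)
  have ht9 : Tendsto (fun X : ℕ => 9 * (X : ℝ)) atTop atTop :=
    tendsto_natCast_atTop_atTop.const_mul_atTop (by norm_num)
  have hc1 := ht9.eventually (hCNT M1 _ _ η hM1 hD1 h0)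
  choose! S0 S1 h2c h8c hS0 hS1 hi0 hi1 using hALG
  filter_upwards [hc0, hc1, hFD c hc z hz3] with X hX0 hX1 hXF
  set A := (range (X + 1)).filter fun D => Fund D ∧ D % 3 = c with hA
  have hAm : ∀ D ∈ A, Fund D ∧ D % 3 = c ∧ D ≤ X := fun D hD => by
    obtain ⟨a1, a2, a3⟩ := mem_filter.1 hD
    exact ⟨a2, a3, Nat.lt_succ_iff.1 (mem_range.1 a1)⟩
  have hd0 : ∀ D ∈ A, ∀ f ∈ S0 D, dsc f = 1 * D := fun D hD f hf => by
    rw [one_mul]; exact (hS0 D (hAm D hD).1 f hf).2.1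
  have hd1 : ∀ D ∈ A, ∀ f ∈ S1 D, dsc f = 9 * D := fun D hD f hf =>
    (hS1 D (hAm D hD).1 f hf).2.2.1
  have hU0 := hX0 (A.biUnion S0) (by
    intro f hf
    obtain ⟨D, hD, hf⟩ := mem_biUnion.1 hf
    obtain ⟨a1, a2, a3⟩ := hAm D hD
    obtain ⟨b1, b2, b3⟩ := hS0 D a1 f hf
    refine ⟨b1, ?_, ?_, ?_⟩
    · rw [b2]; exact_mod_cast lt_trans Nat.zero_lt_one a1.1
    · rw [b2]; exact_mod_cast a3
    · intro p q r s hdet
      refine ⟨a2 ▸ b3 p q r s hdet, fun l hl => ?_⟩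
      rintro ⟨u, v, e⟩
      rw [dsc_act, hdet, one_pow, one_mul, b2] at e
      exact a1.min (mem_Pz hl).1 u v e)
    (inj_U A S0 1 one_ne_zero hd0 fun D hD => hi0 D (hAm D hD).1)
  have hU1 := hX1 (A.biUnion S1) (by
    intro f hf
    obtain ⟨D, hD, hf⟩ := mem_biUnion.1 hf
    obtain ⟨a1, a2, a3⟩ := hAm D hD
    obtain ⟨-, b1, b2, b3⟩ := hS1 D a1 f hf
    refine ⟨b1, ?_, ?_, ?_⟩
    · rw [b2]
      have : (0 : ℤ) < D := by exact_mod_cast lt_trans Nat.zero_lt_one a1.1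
      linarith
    · rw [b2]
      have : (D : ℝ) ≤ X := by exact_mod_cast a3
      push_cast
      linarith
    · intro p q r s hdet
      refine ⟨b3 p q r s hdet, fun l hl => ?_⟩
      rintro ⟨u, v, e⟩
      rw [dsc_act, hdet, one_pow, one_mul, b2] at e
      exact fund_min9 a1 (mem_Pz hl).1 (mem_Pz hl).2 u v e)
    (inj_U A S1 9 (by norm_num) hd1 fun D hD => hi1 D (hAm D hD).1)
  have hXn : (0 : ℝ) ≤ X := Nat.cast_nonneg _
  set B := A.filter fun D => ¬ Green (kD D) with hB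
  have hGe : ((range (X + 1)).filter fun D => Fund D ∧ D % 3 = c ∧ Green (kD D)) =
      A.filter fun D => Green (kD D) := by
    rw [hA, filter_filter]
    exact filter_congr fun D _ => and_assoc.symm
  have hGB : (A.filter fun D => Green (kD D)).card + B.card = A.card :=
    card_filter_add_card_filter_not _
  have hsum : 2 * A.card + 6 * B.card ≤ (A.biUnion S0).card + (A.biUnion S1).card := by
    rw [card_U A S0 1 one_ne_zero hd0, card_U A S1 9 (by norm_num) hd1, ← sum_add_distrib, hB,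
      card_filter (fun D => ¬ Green (kD D)) A, card_eq_sum_ones A, mul_sum, mul_sum,
      ← sum_add_distrib]
    refine sum_le_sum fun D hD => ?_
    have a1 := (hAm D hD).1
    by_cases hg : Green (kD D)
    · simpa [hg] using h2c D a1
    · simpa [hg] using h8c D a1 hg
  have hemp : c ≠ 1 → (A.biUnion S1).card = 0 := fun hc1 => by
    rw [card_eq_zero, eq_empty_iff_forall_notMem]
    intro f hf
    obtain ⟨D, hD, hf⟩ := mem_biUnion.1 hf
    obtain ⟨a1, a2, -⟩ := hAm D hD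
    exact hc1 (a2.symm.trans (hS1 D a1 f hf).1)
  have hr3 : 2 / 9 ≤ r3 c := by
    unfold r3; split_ifs <;> norm_num
  rw [hGe]
  refine arith η ε (r3 c / 2 * PP z) (Real.pi ^ 2 / 6 * (8 / 9 * PP z)) X _ B.card _
    ((A.biUnion S0).card + (A.biUnion S1).card) h0 h1 h2 (by nlinarith) hw hXn ?_
    (by exact_mod_cast hGB) (by exact_mod_cast hsum) ?_
  · refine le_trans (mul_le_mul_of_nonneg_right (by linarith) hXn) hXF
  · have hηX : 0 ≤ η * X := mul_nonneg h0.le hXn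
    have hcases : c = 0 ∨ c = 1 ∨ c = 2 := by omega
    rcases hcases with rfl | rfl | rfl
    · rw [hemp (by norm_num)]
      simp only [r0, r3, if_true] at hU0 ⊢
      push_cast
      nlinarith
    · simp only [r0, r3, if_true, one_ne_zero, if_false] at hU0 ⊢
      nlinarith
    · rw [hemp (by norm_num)]
      simp only [r0, r3, two_ne_zero, if_false, show (2 : ℕ) ≠ 1 by norm_num] at hU0 ⊢
      push_cast
      nlinarith

end Pool.Agent.MP_1246c0_nt.H3
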